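import Pool.Agent.helper56.P2.SpecU

set_option autoImplicit false
set_option linter.unusedVariables false

namespace Pool.Agent.P2U

open MeasureTheory Set Filter Topology Metric Complex
open scoped ENNReal ContDiff

noncomputable section

theorem UIBP_open (a r : ℝ) : IsOpen (TB a r) := by
  have h1 : IsOpen {p : ℂ × ℂ | ‖p.1‖ < a} := isOpen_lt (by fun_prop) continuous_const
  have h2 : IsOpen {p : ℂ × ℂ | ‖p.2‖ < r} := isOpen_lt (by fun_prop) continuous_const
  exact h1.inter h2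

theorem UIBP_dir {f : ℂ × ℂ → ℂ} {U : Set (ℂ × ℂ)} (hf : AnalyticOnNhd ℂ f U) (e : ℂ × ℂ) :
    AnalyticOnNhd ℂ (fun p => fderiv ℂ f p e) U := by
  intro p hp
  have h1 : AnalyticAt ℂ (fderiv ℂ f) p := hf.fderiv p hp
  have h2 : AnalyticAt ℂ (fun L : (ℂ × ℂ) →L[ℂ] ℂ => L e) (fderiv ℂ f p) :=
    (ContinuousLinearMap.apply ℂ ℂ e).analyticAt _
  exact h2.comp h1

theorem UIBP_ef {P Q : ℂ × ℂ → ℂ} {a r : ℝ} (H : Hol P Q a r) :
    AnalyticOnNhd ℂ (ef P Q) (TB a r) := by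
  have h1 := UIBP_dir H.hP (1, 0)
  have h2 := UIBP_dir H.hP (0, 1)
  have h3 := UIBP_dir H.hQ (1, 0)
  have h4 := UIBP_dir H.hQ (0, 1)
  intro p hp
  have hcv : AnalyticAt ℂ (cv P Q) p :=
    ((H.hQ p hp).mul (h2 p hp)).sub ((H.hP p hp).mul (h4 p hp))
  have hcx : AnalyticAt ℂ (cx P Q) p :=
    ((H.hQ p hp).mul (h1 p hp)).sub ((H.hP p hp).mul (h3 p hp))
  exact hcv.prod hcx.neg

theorem UIBP_int {f : ℂ × ℂ → ℝ} {K U : Set (ℂ × ℂ)} (hK : IsCompact K) (hKU : K ⊆ U)
    (hf : ContinuousOn f U) (h0 : ∀ p, p ∉ K → f p = 0) : Integrable f :=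
  ((hf.mono hKU).integrableOn_compact hK).integrable_of_forall_notMem_eq_zero h0

/-- second derivative along a vector field -/
def UIBP_G (V : ℂ × ℂ → ℂ × ℂ) (A : ℂ × ℂ → ℝ) (p : ℂ × ℂ) : ℝ :=
  fderiv ℝ (fderiv ℝ A) p (V p) (V p) + fderiv ℝ A p (fderiv ℝ V p (V p))

theorem UIBP_G_eq {V : ℂ × ℂ → ℂ × ℂ} {A : ℂ × ℂ → ℝ} {p : ℂ × ℂ} (hA : ContDiffAt ℝ 2 A p)
    (hV : DifferentiableAt ℝ V p) :
    DifferentiableAt ℝ (fun q => fderiv ℝ A q (V q)) p ∧
      fderiv ℝ (fun q => fderiv ℝ A q (V q)) p (V p) = UIBP_G V A p := by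
  have h1 : DifferentiableAt ℝ (fderiv ℝ A) p :=
    (hA.fderiv_right (m := 1) (by norm_num)).differentiableAt (by norm_num)
  refine ⟨h1.clm_apply hV, ?_⟩
  rw [fderiv_clm_apply h1 hV]
  unfold UIBP_G
  rw [ContinuousLinearMap.add_apply, ContinuousLinearMap.comp_apply, ContinuousLinearMap.flip_apply]
  ring

theorem UIBP_key {V : ℂ × ℂ → ℂ × ℂ} {A B : ℂ × ℂ → ℝ} {U : Set (ℂ × ℂ)} (hU : IsOpen U)
    (hV : ContDiffOn ℝ 1 V U) (hA : ContDiffOn ℝ 2 A U) (hB : ContDiff ℝ 2 B)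
    (hBc : HasCompactSupport B) (hBs : tsupport B ⊆ U) :
    ∃ φ : ℂ × ℂ → ℝ, ContDiff ℝ 1 φ ∧ HasCompactSupport φ ∧ tsupport φ ⊆ U ∧
      ∀ p, fderiv ℝ φ p (V p) = UIBP_G V A p * B p - A p * UIBP_G V B p := by
  have hz : ∀ p, p ∉ tsupport B → B =ᶠ[𝓝 p] fun _ => 0 := fun p hp =>
    notMem_tsupport_iff_eventuallyEq.1 hp
  have hz1 : ∀ p, p ∉ tsupport B → fderiv ℝ B =ᶠ[𝓝 p] fun _ => 0 := by
    intro p hp
    have h1 := (hz p hp).fderiv (𝕜 := ℝ)
    refine h1.trans (Eventually.of_forall fun q => ?_)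
    simp
  have hz0 : ∀ p, p ∉ tsupport B →
      (fun q => fderiv ℝ A q (V q) * B q - A q * fderiv ℝ B q (V q)) =ᶠ[𝓝 p] fun _ => 0 := by
    intro p hp
    filter_upwards [hz p hp, hz1 p hp] with q h1 h2
    rw [h1, h2]
    simp
  have hsub : tsupport (fun q => fderiv ℝ A q (V q) * B q - A q * fderiv ℝ B q (V q)) ⊆
      tsupport B := by
    intro p hp
    by_contra h
    exact (notMem_tsupport_iff_eventuallyEq.2 (hz0 p h)) hp
  have hAt : ∀ p ∈ U, ContDiffAt ℝ 2 A p := fun p hp => hA.contDiffAt (hU.mem_nhds hp)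
  have hVt : ∀ p ∈ U, ContDiffAt ℝ 1 V p := fun p hp => hV.contDiffAt (hU.mem_nhds hp)
  refine ⟨fun q => fderiv ℝ A q (V q) * B q - A q * fderiv ℝ B q (V q), ?_, ?_,
    hsub.trans hBs, ?_⟩
  · rw [contDiff_iff_contDiffAt]
    intro p
    by_cases hp : p ∈ tsupport B
    · have hpU := hBs hp
      have h1 : ContDiffAt ℝ 1 (fderiv ℝ A) p := (hAt p hpU).fderiv_right (m := 1) (by norm_num)
      have h2 : ContDiffAt ℝ 1 (fderiv ℝ B) p :=
        hB.contDiffAt.fderiv_right (m := 1) (by norm_num)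
      have h3 : ContDiffAt ℝ 1 B p := hB.contDiffAt.of_le (by norm_num)
      have h4 : ContDiffAt ℝ 1 A p := (hAt p hpU).of_le (by norm_num)
      exact ((h1.clm_apply (hVt p hpU)).mul h3).sub (h4.mul (h2.clm_apply (hVt p hpU)))
    · exact contDiffAt_const.congr_of_eventuallyEq (hz0 p hp)
  · exact hBc.of_isClosed_subset (isClosed_tsupport _) hsub
  · intro p
    by_cases hp : p ∈ tsupport B
    · have hpU := hBs hp
      have hVd : DifferentiableAt ℝ V p := (hVt p hpU).differentiableAt (by norm_num)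
      obtain ⟨h1, h1'⟩ := UIBP_G_eq (hAt p hpU) hVd
      obtain ⟨h2, h2'⟩ := UIBP_G_eq (A := B) hB.contDiffAt hVd
      have h3 : DifferentiableAt ℝ B p := hB.contDiffAt.differentiableAt (by norm_num)
      have h4 : DifferentiableAt ℝ A p := (hAt p hpU).differentiableAt (by norm_num)
      rw [fderiv_fun_sub (h1.fun_mul h3) (h4.fun_mul h2), fderiv_fun_mul h1 h3, fderiv_fun_mul h4 h2]
      simp only [ContinuousLinearMap.sub_apply, ContinuousLinearMap.add_apply,
        ContinuousLinearMap.smul_apply, smul_eq_mul]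
      rw [h1', h2']
      ring
    · have h1 := (hz0 p hp).fderiv_eq (𝕜 := ℝ)
      rw [h1]
      have h2 : B p = 0 := (hz p hp).eq_of_nhds
      have h3 : fderiv ℝ B p = 0 := (hz1 p hp).eq_of_nhds
      have h4 : fderiv ℝ (fderiv ℝ B) p = 0 := by
        rw [(hz1 p hp).fderiv_eq]
        simp
      unfold UIBP_G
      rw [h2, h3, h4]
      simp

theorem UIBP (hDIV : UDIV_stmt) : UIBP_stmt := by
  intro P Q τ H A B hA hB hBc hBs
  have hU : IsOpen (TB 4 τ) := UIBP_open _ _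
  have hef := UIBP_ef H
  have hefR : ContDiffOn ℝ 1 (ef P Q) (TB 4 τ) := fun p hp =>
    ((hef p hp).contDiffAt.restrict_scalars ℝ).contDiffWithinAt
  have hefI : ContDiffOn ℝ 1 (fun p => I • ef P Q p) (TB 4 τ) := hefR.const_smul I
  obtain ⟨φ₁, a1, a2, a3, a4⟩ := UIBP_key hU hefR hA hB hBc hBs
  obtain ⟨φ₂, b1, b2, b3, b4⟩ := UIBP_key hU hefI hA hB hBc hBs
  have c1 := (hDIV P Q τ H φ₁ a1 a2 a3).1
  have c2 := (hDIV P Q τ H φ₂ b1 b2 b3).2
  -- the sum of the second derivatives is four times the Levi form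
  have hsum : ∀ (C : ℂ × ℂ → ℝ) (p : ℂ × ℂ), p ∈ TB 4 τ →
      UIBP_G (ef P Q) C p + UIBP_G (fun q => I • ef P Q q) C p = 4 * Lv C p (ef P Q p) := by
    intro C p hp
    have hd : DifferentiableAt ℂ (ef P Q) p := (hef p hp).differentiableAt
    have hdR : DifferentiableAt ℝ (ef P Q) p := hd.restrictScalars ℝ
    have e1 : fderiv ℝ (fun q => I • ef P Q q) p = I • fderiv ℝ (ef P Q) p :=
      fderiv_fun_const_smul hdR I
    have e2 : fderiv ℝ (ef P Q) p (I • ef P Q p) = I • fderiv ℝ (ef P Q) p (ef P Q p) := by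
      rw [hd.fderiv_restrictScalars ℝ]
      simp
    unfold UIBP_G Lv
    rw [e1]
    rw [ContinuousLinearMap.smul_apply, e2, smul_smul, I_mul_I, neg_smul, one_smul, map_neg]
    ring
  -- continuity
  have hom : ContinuousOn (om P Q) (TB 4 τ) := by
    have hPc : ContinuousOn P (TB 4 τ) := H.hP.continuousOn
    have hQc : ContinuousOn Q (TB 4 τ) := H.hQ.continuousOn
    refine ContinuousOn.inv₀ (((hPc.norm.pow 2).add (hQc.norm.pow 2)).pow 2) ?_
    intro p hp
    have : 0 < ‖P p‖ ^ 2 + ‖Q p‖ ^ 2 := by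
      rcases H.ne p hp with h | h
      · have := norm_pos_iff.2 h
        positivity
      · have := norm_pos_iff.2 h
        positivity
    positivity
  have hLv : ∀ C : ℂ × ℂ → ℝ, ContDiffOn ℝ 2 C (TB 4 τ) →
      ContinuousOn (fun p => Lv C p (ef P Q p)) (TB 4 τ) := by
    intro C hC
    have h1 : ContDiffOn ℝ 1 (fderiv ℝ C) (TB 4 τ) := hC.fderiv_of_isOpen hU (by norm_num)
    have h2 : ContinuousOn (fderiv ℝ (fderiv ℝ C)) (TB 4 τ) :=
      (h1.fderiv_of_isOpen (m := 0) hU (by norm_num)).continuousOn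
    have h3 := (h2.clm_apply hefR.continuousOn).clm_apply hefR.continuousOn
    have h4 := (h2.clm_apply hefI.continuousOn).clm_apply hefI.continuousOn
    exact (h3.add h4).div_const 4
  have hBU : ContDiffOn ℝ 2 B (TB 4 τ) := hB.contDiffOn
  have hK : IsCompact (tsupport B) := hBc
  have hz : ∀ p, p ∉ tsupport B → B =ᶠ[𝓝 p] fun _ => 0 := fun p hp =>
    notMem_tsupport_iff_eventuallyEq.1 hp
  have hz1 : ∀ p, p ∉ tsupport B → fderiv ℝ B =ᶠ[𝓝 p] fun _ => 0 := by
    intro p hp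
    have h1 := (hz p hp).fderiv (𝕜 := ℝ)
    refine h1.trans (Eventually.of_forall fun q => ?_)
    simp
  have hBz : ∀ p, p ∉ tsupport B → B p = 0 := fun p hp => (hz p hp).eq_of_nhds
  have hLz : ∀ p, p ∉ tsupport B → Lv B p (ef P Q p) = 0 := by
    intro p hp
    have h4 : fderiv ℝ (fderiv ℝ B) p = 0 := by
      rw [(hz1 p hp).fderiv_eq]
      simp
    unfold Lv
    rw [h4]
    simp
  have i1 : Integrable fun p => Lv A p (ef P Q p) * B p * om P Q p := by
    refine UIBP_int hK hBs (((hLv A hA).mul hB.continuous.continuousOn).mul hom) ?_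
    intro p hp
    rw [hBz p hp]
    ring
  have i2 : Integrable fun p => A p * Lv B p (ef P Q p) * om P Q p := by
    refine UIBP_int hK hBs ((hA.continuousOn.mul (hLv B hBU)).mul hom) ?_
    intro p hp
    rw [hLz p hp]
    ring
  have i3 : Integrable fun p => fderiv ℝ φ₁ p (ef P Q p) * om P Q p := by
    refine UIBP_int a2 a3 (((a1.continuous_fderiv (by norm_num)).continuousOn.clm_apply
      hefR.continuousOn).mul hom) ?_
    intro p hp
    have h1 : φ₁ =ᶠ[𝓝 p] fun _ => 0 := notMem_tsupport_iff_eventuallyEq.1 hp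
    rw [h1.fderiv_eq]
    simp
  have i4 : Integrable fun p => fderiv ℝ φ₂ p (I • ef P Q p) * om P Q p := by
    refine UIBP_int b2 b3 (((b1.continuous_fderiv (by norm_num)).continuousOn.clm_apply
      hefI.continuousOn).mul hom) ?_
    intro p hp
    have h1 : φ₂ =ᶠ[𝓝 p] fun _ => 0 := notMem_tsupport_iff_eventuallyEq.1 hp
    rw [h1.fderiv_eq]
    simp
  have hpt : ∀ p, Lv A p (ef P Q p) * B p * om P Q p - A p * Lv B p (ef P Q p) * om P Q p =
      (1 / 4) * (fderiv ℝ φ₁ p (ef P Q p) * om P Q p +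
        fderiv ℝ φ₂ p (I • ef P Q p) * om P Q p) := by
    intro p
    have e2 := b4 p
    rw [a4 p, e2]
    by_cases hp : p ∈ TB 4 τ
    · have s1 := hsum A p hp
      have s2 := hsum B p hp
      linear_combination (-(1 / 4) * B p * om P Q p) * s1 + (1 / 4 * A p * om P Q p) * s2
    · have hp' : p ∉ tsupport B := fun h => hp (hBs h)
      have h2 : B p = 0 := hBz p hp'
      have h3 : fderiv ℝ B p = 0 := (hz1 p hp').eq_of_nhds
      have h4 : fderiv ℝ (fderiv ℝ B) p = 0 := by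
        rw [(hz1 p hp').fderiv_eq]
        simp
      have h5 := hLz p hp'
      unfold UIBP_G
      rw [h2, h3, h4, h5]
      simp
  have hfin : ∫ p, (Lv A p (ef P Q p) * B p * om P Q p - A p * Lv B p (ef P Q p) * om P Q p) = 0 := by
    rw [integral_congr_ae (Eventually.of_forall hpt), integral_const_mul, integral_add i3 i4, c1, c2]
    ring
  rw [integral_sub i1 i2] at hfin
  linarith

end

end Pool.Agent.P2U
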