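import Pool.Agent.helper37.P2.SpecD
import Pool.Agent.helper20.P2.ISM

/-!
# Project P2 (MP_063734_an), row FAM: there are finitely many islands
-/

set_option autoImplicit false

open scoped ContDiff Topology
open MeasureTheory Filter Set Metric MvPolynomial Pool.Agent.helper37.QA

namespace Pool.Agent.P2

theorem FAM_gt0 {d : ℕ} (f : Endo 2 d) (hd : 2 ≤ d) {ι : Fin 2} {c : ℂ} {κ : ℝ} {γ : ℂ → ℂ} (hκ : 0 < κ)
    (hκ1 : κ ≤ 1 / 10) (hc : ‖c‖ ≤ 2) (hγ : DifferentiableOn ℂ γ (ball 0 1)) {ξ : ℂ} (hξ : ξ ∈ ball (0 : ℂ) 1) :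
    κ ^ 2 / 60 ≤ gt f 0 ι c κ γ (ξ, 0) := by
  rw [ISM_gt_tau f hd 0 hγ hξ]
  have hIt : ∀ W : E3, It f 0 W = W := fun W => pmap_iter_zero f.F W
  have hder : deriv (fun ξ : ℂ => c + (κ : ℂ) * ξ) ξ = (κ : ℂ) := by
    have h1 : HasDerivAt (fun ξ : ℂ => c + (κ : ℂ) * ξ) (κ * 1) ξ :=
      ((hasDerivAt_id ξ).const_mul (κ : ℂ)).const_add c
    rw [h1.deriv, mul_one]
  have hn : Complex.normSq (c + (κ : ℂ) * ξ) ≤ 441 / 100 := by
    rw [Complex.normSq_eq_norm_sq]
    have h1 : ‖c + (κ : ℂ) * ξ‖ ≤ 21 / 10 := by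
      refine (norm_add_le _ _).trans ?_
      rw [norm_mul, Complex.norm_real, Real.norm_of_nonneg hκ.le]
      rw [mem_ball_zero_iff] at hξ
      have : κ * ‖ξ‖ ≤ 1 / 10 * 1 := mul_le_mul hκ1 hξ.le (norm_nonneg _) (by norm_num)
      linarith
    nlinarith [norm_nonneg (c + (κ : ℂ) * ξ)]
  have hn0 := Complex.normSq_nonneg (c + (κ : ℂ) * ξ)
  have key : κ ^ 2 / 60 ≤ 1 / 2 * κ ^ 2 / (1 + Complex.normSq (c + (κ : ℂ) * ξ)) ^ 2 := by
    rw [div_le_div_iff₀ (by norm_num) (by positivity)]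
    have h2 : (1 + Complex.normSq (c + (κ : ℂ) * ξ)) ^ 2 ≤ 30 := by nlinarith
    nlinarith [sq_nonneg κ]
  unfold tau pq
  simp only [hIt, pow_zero, div_one]
  have hk2 : Complex.normSq (κ : ℂ) = κ ^ 2 := by
    rw [Complex.normSq_ofReal]; ring
  fin_cases ι
  · simp only [gp, cht, Fin.zero_eta, if_true, Matrix.cons_val_zero, Matrix.cons_val_one, deriv_const, mul_zero,
      one_mul, hder, zero_sub, Complex.normSq_neg, hk2, map_one]
    exact key
  · have h10 : ¬ ((1 : Fin 2) = 0) := by decide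
    simp only [gp, cht, Fin.mk_one, if_neg h10, Matrix.cons_val_zero, Matrix.cons_val_one, deriv_const, mul_zero,
      one_mul, hder, sub_zero, hk2, map_one]
    rw [add_comm (Complex.normSq (c + (κ : ℂ) * ξ)) 1]
    exact key

theorem FAM_eta {z : ℂ} (h : eta z ≠ 0) : ‖z‖ ≤ 4 / 5 := by
  by_contra hz
  push Not at hz
  apply h
  unfold eta
  apply Real.smoothTransition.zero_of_nonpos
  rw [Complex.normSq_eq_norm_sq]
  nlinarith

theorem FAM (hUN1 : UN1_stmt) (hMSS : MSS_stmt) (hUNI : UNI_stmt) (hISM : ISM_stmt) (hDIA : DIA_stmt) : FAM_stmt := by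
  classical
  intro d f U hd hU κ Kb hκ hκ1 hKb
  obtain ⟨C1, hC1, hC2, -, hC3, -⟩ := hUN1 d f U hd hU
  obtain ⟨C4, -, hI⟩ := hISM d f U hd hU
  obtain ⟨CD, hCD, hD⟩ := hDIA
  have hdR : (0 : ℝ) < d := by
    have : 0 < d := by omega
    exact_mod_cast this
  -- the cut-off
  set χ : ContDiffBump (0 : ℂ) := ⟨9 / 10, 19 / 20, by norm_num, by norm_num⟩ with hχ
  have hχs : tsupport (χ : ℂ → ℝ) ⊆ ball 0 1 := by
    rw [χ.tsupport_eq]
    exact closedBall_subset_ball (by norm_num)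
  have hχc : ContDiff ℝ ∞ (χ : ℂ → ℝ) := χ.contDiff
  obtain ⟨hlc, hls, hlcs⟩ := ISM_lap (κ := (χ : ℂ → ℝ)) (hχc.of_le (WithTop.coe_le_coe.2 (le_top : (2 : ℕ∞) ≤ ⊤))) hχs
  set I : ℝ := ∫ z, |lap (χ : ℂ → ℝ) z| with hIdef
  have hI0 : 0 ≤ I := integral_nonneg fun z => abs_nonneg _
  refine ⟨400 * CD + 80 * I * (Kb + C1) / κ ^ 2, by positivity, ?_⟩
  intro N k Z ι c hSD
  obtain ⟨hkN, hDsc, hm1, hub, hc2⟩ := hSD
  have hdk : 0 < (d : ℝ) ^ k := by positivity
  have hd1 : (1 : ℝ) ≤ (d : ℝ) ^ k := one_le_pow₀ (by exact_mod_cast (by omega : 1 ≤ d))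
  have hccl : ∀ W : E3, W ∈ cone U → W ∈ cone (closure U) := fun W ⟨h1, h2⟩ => ⟨h1, subset_closure h2⟩
  -- the integral of the density
  have htc := P2N.NIS_tau_cont f k hDsc.1 (fun w hw => (hC3 k _ (hccl _ (hDsc.2 w hw))).1)
  have htn : ∀ z, 0 ≤ tau f k Z z := by
    intro z
    unfold tau
    have := Complex.normSq_nonneg (It f k (Z z) 1 * deriv (fun z => It f k (Z z) 0) z -
      It f k (Z z) 0 * deriv (fun z => It f k (Z z) 1) z)
    positivity
  have hint : Integrable (fun z => χ z * tau f k Z z) := by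
    have hsupp : Function.support (fun z => χ z * tau f k Z z) ⊆ closedBall 0 (19 / 20) := by
      intro z hz
      have h1 : χ z ≠ 0 := fun h0 => hz (by show χ z * tau f k Z z = 0; rw [h0, zero_mul])
      have h2 : z ∈ tsupport (χ : ℂ → ℝ) := subset_tsupport _ h1
      rw [χ.tsupport_eq] at h2
      exact h2
    refine (integrableOn_iff_integrable_of_support_subset hsupp).1 ?_
    have hc2 : closedBall (0 : ℂ) (19 / 20) ⊆ ball 0 1 := closedBall_subset_ball (by norm_num)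
    exact ((hχc.continuous.continuousOn).mul (htc.mono hc2)).integrableOn_compact (isCompact_closedBall _ _)
  have htot : ∫ z, χ z * tau f k Z z ≤ I * (Kb * mass f N Z + C1) := by
    rw [(hMSS d f U hd hU Z hDsc k).2 (χ : ℂ → ℝ) hχc hχs]
    have h1 : ∀ z, ‖lap (χ : ℂ → ℝ) z * un f k (Z z)‖ ≤ |lap (χ : ℂ → ℝ) z| * (Kb * mass f N Z + C1) := by
      intro z
      rw [norm_mul, Real.norm_eq_abs, Real.norm_eq_abs]
      by_cases hz : z ∈ ball (0 : ℂ) 1
      · refine mul_le_mul_of_nonneg_left ?_ (abs_nonneg _)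
        have h2 := hC2 k N hkN (Z z) (hccl _ (hDsc.2 z hz))
        have h3 := hub z hz
        have h4 : C1 / (d : ℝ) ^ k ≤ C1 := div_le_self hC1.le hd1
        have h5 : |un f k (Z z)| ≤ |un f N (Z z)| + |un f N (Z z) - un f k (Z z)| := by
          have := abs_sub_abs_le_abs_sub (un f k (Z z)) (un f N (Z z))
          rw [abs_sub_comm] at this
          linarith
        linarith
      · rw [image_eq_zero_of_notMem_tsupport (fun h => hz (hls h)), abs_zero, zero_mul, zero_mul]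
    calc ∫ z, lap (χ : ℂ → ℝ) z * un f k (Z z) ≤ ‖∫ z, lap (χ : ℂ → ℝ) z * un f k (Z z)‖ := Real.le_norm_self _
      _ ≤ ∫ z, ‖lap (χ : ℂ → ℝ) z * un f k (Z z)‖ := norm_integral_le_integral_norm _
      _ ≤ ∫ z, |lap (χ : ℂ → ℝ) z| * (Kb * mass f N Z + C1) := by
          refine integral_mono_of_nonneg (Eventually.of_forall fun z => norm_nonneg _) ?_ (Eventually.of_forall h1)
          exact ((hlc.abs).integrable_of_hasCompactSupport (hlcs.comp_left abs_zero)).mul_const _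
      _ = I * (Kb * mass f N Z + C1) := by rw [integral_mul_const]
  -- families
  let P : ℕ → Prop := fun n => ∃ A : Fin n → ID,
    (∀ a, (A a).ι = ι ∧ (A a).c = c ∧ NI f Z k ι c κ (A a).g (A a).γ) ∧
    (∀ a b, a ≠ b → Disjoint ((A a).g '' ball 0 1) ((A b).g '' ball 0 1)) ∧
    ∀ a, ∃ ξ ∈ closedBall (0 : ℂ) (1 / 32), eta ((A a).g ξ) ≠ 0
  have hbound : ∀ n, P n → (n : ℝ) ≤ (400 * CD + 80 * I * (Kb + C1) / κ ^ 2) * ((d : ℝ) ^ k * mass f N Z) := by
    rintro n ⟨A, h1, h2, h3⟩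
    have hinj : ∀ a, InjOn (A a).g (ball 0 1) := fun a =>
      ((hUNI d f U Z k ι c κ hU.1 hDsc hκ).2 (A a).g (A a).γ (h1 a).2.2.1).1
    have hgd : ∀ a, DifferentiableOn ℂ (A a).g (ball 0 1) := fun a => (h1 a).2.2.1.1
    have hgm : ∀ a, ∀ ξ ∈ ball (0 : ℂ) 1, (A a).g ξ ∈ ball (0 : ℂ) 1 := fun a => (h1 a).2.2.1.2.1
    -- far and near members
    set F : Finset (Fin n) := Finset.univ.filter (fun a => ∃ ξ ∈ closedBall (0 : ℂ) (1 / 2), ∃ ξ' ∈ closedBall (0 : ℂ) (1 / 2),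
      1 / 20 ≤ ‖(A a).g ξ - (A a).g ξ'‖) with hF
    have hFc : (F.card : ℝ) ≤ 400 * CD := by
      have h4 := (hD n (fun a => (A a).g) (fun a => if a ∈ F then 1 / 20 else 0)
        (fun a => ⟨hgd a, hinj a, hgm a⟩) h2 (by
          intro a
          by_cases ha : a ∈ F
          · simp only [if_pos ha]
            refine ⟨by norm_num, ?_⟩
            rw [hF, Finset.mem_filter] at ha
            exact ha.2
          · simp only [if_neg ha]
            refine ⟨le_refl _, 0, by simp, 0, by simp, by simp⟩)).1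
      have h5 : ∑ a : Fin n, (if a ∈ F then (1 / 20 : ℝ) else 0) ^ 2 = F.card * (1 / 400) := by
        have h6 : ∀ a : Fin n, (if a ∈ F then (1 / 20 : ℝ) else 0) ^ 2 = if a ∈ F then (1 / 400 : ℝ) else 0 := by
          intro a
          split_ifs
          · norm_num
          · norm_num
        rw [Finset.sum_congr rfl fun a _ => h6 a, Finset.sum_ite_mem, Finset.univ_inter, Finset.sum_const,
          nsmul_eq_mul]
      rw [h5] at h4
      linarith
    set G : Finset (Fin n) := Finset.univ.filter (fun a => ¬ ∃ ξ ∈ closedBall (0 : ℂ) (1 / 2), ∃ ξ' ∈ closedBall (0 : ℂ) (1 / 2),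
      1 / 20 ≤ ‖(A a).g ξ - (A a).g ξ'‖) with hG
    have hFG : (n : ℝ) = F.card + G.card := by
      have h4 := Finset.card_filter_add_card_filter_not (s := (Finset.univ : Finset (Fin n)))
        (fun a => ∃ ξ ∈ closedBall (0 : ℂ) (1 / 2), ∃ ξ' ∈ closedBall (0 : ℂ) (1 / 2),
          1 / 20 ≤ ‖(A a).g ξ - (A a).g ξ'‖)
      rw [Finset.card_univ, Fintype.card_fin] at h4
      have h5 : n = F.card + G.card := h4.symm
      exact_mod_cast h5
    have hsub : ∀ a ∈ G, (A a).g '' ball 0 (1 / 2) ⊆ closedBall 0 (9 / 10) := by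
      rintro a ha _ ⟨ξ, hξ, rfl⟩
      rw [hG, Finset.mem_filter] at ha
      have h4 := ha.2
      push Not at h4
      obtain ⟨ξ', hξ', he⟩ := h3 a
      have h5 := h4 ξ (ball_subset_closedBall hξ) ξ' (closedBall_subset_closedBall (by norm_num) hξ')
      have h6 := FAM_eta he
      rw [mem_closedBall_zero_iff]
      have h7 : ‖(A a).g ξ‖ ≤ ‖(A a).g ξ'‖ + ‖(A a).g ξ - (A a).g ξ'‖ := by
        have := norm_add_le ((A a).g ξ') ((A a).g ξ - (A a).g ξ')
        rwa [add_sub_cancel] at this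
      linarith
    have hbb : ball (0 : ℂ) (1 / 2) ⊆ ball 0 1 := ball_subset_ball (by norm_num)
    have hmeas : ∀ a, MeasurableSet ((A a).g '' ball 0 (1 / 2)) := fun a =>
      measurableSet_ball.image_of_continuousOn_injOn ((hgd a).continuousOn.mono hbb) ((hinj a).mono hbb)
    have hone : ∀ a, ENNReal.ofReal (κ ^ 2 / (80 * (d : ℝ) ^ k)) ≤
        ∫⁻ z in (A a).g '' ball 0 (1 / 2), ENNReal.ofReal (tau f k Z z) := by
      intro a
      obtain ⟨-, -, h4, -⟩ := hI k k Z ι c κ (A a).g (A a).γ hκ hκ1 le_rfl hDsc hc2 (h1 a).2.2.1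
      rw [h4 _ measurableSet_ball hbb]
      have h5 : ∀ ξ ∈ ball (0 : ℂ) (1 / 2), ENNReal.ofReal (κ ^ 2 / 60 / (d : ℝ) ^ k) ≤
          ENNReal.ofReal (gt f (k - k) ι c κ (A a).γ (ξ, 0) / (d : ℝ) ^ k) := by
        intro ξ hξ
        refine ENNReal.ofReal_le_ofReal ?_
        rw [Nat.sub_self]
        exact div_le_div_of_nonneg_right (FAM_gt0 f hd hκ hκ1 hc2 (h1 a).2.2.1.2.2.1 (hbb hξ)) hdk.le
      refine le_trans ?_ (setLIntegral_mono' measurableSet_ball h5)
      rw [setLIntegral_const, Complex.volume_ball]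
      have h6 : (NNReal.pi : ENNReal) = ENNReal.ofReal Real.pi := by
        rw [← NNReal.coe_real_pi, ENNReal.ofReal_coe_nnreal]
      rw [h6, ← ENNReal.ofReal_pow (by norm_num), ← ENNReal.ofReal_mul (by positivity),
        ← ENNReal.ofReal_mul (by positivity)]
      refine ENNReal.ofReal_le_ofReal ?_
      have hpi := Real.pi_gt_three
      have h7 : κ ^ 2 / (80 * (d : ℝ) ^ k) = κ ^ 2 / 60 / (d : ℝ) ^ k * ((1 / 2) ^ 2 * 3) := by
        field_simp
        norm_num
      rw [h7]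
      refine mul_le_mul_of_nonneg_left ?_ (by positivity)
      nlinarith
    have hsum : (G.card : ENNReal) * ENNReal.ofReal (κ ^ 2 / (80 * (d : ℝ) ^ k)) ≤
        ENNReal.ofReal (I * (Kb * mass f N Z + C1)) := by
      calc (G.card : ENNReal) * ENNReal.ofReal (κ ^ 2 / (80 * (d : ℝ) ^ k))
          = ∑ a ∈ G, ENNReal.ofReal (κ ^ 2 / (80 * (d : ℝ) ^ k)) := by rw [Finset.sum_const, nsmul_eq_mul]
        _ ≤ ∑ a ∈ G, ∫⁻ z in (A a).g '' ball 0 (1 / 2), ENNReal.ofReal (tau f k Z z) :=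
            Finset.sum_le_sum fun a _ => hone a
        _ = ∫⁻ z in ⋃ a ∈ G, (A a).g '' ball 0 (1 / 2), ENNReal.ofReal (tau f k Z z) := by
            rw [lintegral_biUnion_finset]
            · intro a _ b _ hab
              exact (h2 a b hab).mono (image_mono hbb) (image_mono hbb)
            · intro a _
              exact hmeas a
        _ ≤ ∫⁻ z in closedBall (0 : ℂ) (9 / 10), ENNReal.ofReal (tau f k Z z) :=
            lintegral_mono_set (iUnion₂_subset hsub)
        _ ≤ ∫⁻ z in closedBall (0 : ℂ) (9 / 10), ENNReal.ofReal (χ z * tau f k Z z) := by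
            refine setLIntegral_mono' isClosed_closedBall.measurableSet fun z hz => ?_
            rw [χ.one_of_mem_closedBall hz, one_mul]
        _ ≤ ∫⁻ z, ENNReal.ofReal (χ z * tau f k Z z) := setLIntegral_le_lintegral _ _
        _ = ENNReal.ofReal (∫ z, χ z * tau f k Z z) :=
            (ofReal_integral_eq_lintegral_ofReal hint (Eventually.of_forall fun z =>
              mul_nonneg χ.nonneg (htn z))).symm
        _ ≤ _ := ENNReal.ofReal_le_ofReal htot
    have hGc : (G.card : ℝ) * (κ ^ 2 / (80 * (d : ℝ) ^ k)) ≤ I * (Kb * mass f N Z + C1) := by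
      have h4 : ENNReal.ofReal ((G.card : ℝ) * (κ ^ 2 / (80 * (d : ℝ) ^ k))) ≤
          ENNReal.ofReal (I * (Kb * mass f N Z + C1)) := by
        rw [ENNReal.ofReal_mul (Nat.cast_nonneg _), ENNReal.ofReal_natCast]
        exact hsum
      exact (ENNReal.ofReal_le_ofReal_iff (by
        have : 0 < mass f N Z := lt_of_lt_of_le one_pos hm1
        positivity)).1 h4
    have hGc2 : (G.card : ℝ) ≤ 80 * I * (Kb + C1) / κ ^ 2 * ((d : ℝ) ^ k * mass f N Z) := by
      have h4 : (G.card : ℝ) = (G.card : ℝ) * (κ ^ 2 / (80 * (d : ℝ) ^ k)) * (80 * (d : ℝ) ^ k / κ ^ 2) := by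
        field_simp
      rw [h4]
      refine (mul_le_mul_of_nonneg_right hGc (by positivity)).trans ?_
      have h5 : 80 * I * (Kb + C1) / κ ^ 2 * ((d : ℝ) ^ k * mass f N Z) =
          I * (Kb * mass f N Z + C1 * mass f N Z) * (80 * (d : ℝ) ^ k / κ ^ 2) := by
        field_simp
      rw [h5]
      refine mul_le_mul_of_nonneg_right ?_ (by positivity)
      refine mul_le_mul_of_nonneg_left ?_ hI0
      nlinarith
    have hdm : 1 ≤ (d : ℝ) ^ k * mass f N Z := by nlinarith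
    rw [hFG, add_mul]
    nlinarith
  have hP0 : P 0 := ⟨Fin.elim0, fun a => a.elim0, fun a => a.elim0, fun a => a.elim0⟩
  obtain ⟨n, hn, hmax⟩ : ∃ n, P n ∧ ¬ P (n + 1) := by
    by_contra hcon
    push Not at hcon
    have hall : ∀ n, P n := by
      intro n
      induction n with
      | zero => exact hP0
      | succ n ih => exact hcon n ih
    obtain ⟨n, hn⟩ := exists_nat_gt ((400 * CD + 80 * I * (Kb + C1) / κ ^ 2) * ((d : ℝ) ^ k * mass f N Z))
    exact absurd (hbound n (hall n)) (not_le.2 hn)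
  obtain ⟨A, h1, h2, h3⟩ := hn
  refine ⟨n, A, ⟨h1, h2, hbound n ⟨A, h1, h2, h3⟩, ?_⟩⟩
  intro g γ hNI hξ
  by_contra hcon
  push Not at hcon
  apply hmax
  have hdisj : ∀ a, Disjoint (g '' ball 0 1) ((A a).g '' ball 0 1) := by
    intro a
    rw [Set.disjoint_left]
    rintro z ⟨ξ, hξ, rfl⟩ ⟨ξ', hξ', he⟩
    obtain ⟨-, e1, e2⟩ := (hUNI d f U Z k ι c κ hU.1 hDsc hκ).1 g γ (A a).g (A a).γ ξ ξ' hNI.1 (h1 a).2.2.1 hξ hξ' he.symm
    refine hcon a ?_ ?_
    · funext x
      by_cases hx : x ∈ ball (0 : ℂ) 1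
      · exact e1 hx
      · rw [hNI.2.1 x hx, (h1 a).2.2.2.1 x hx]
    · funext x
      by_cases hx : x ∈ ball (0 : ℂ) 1
      · exact e2 hx
      · rw [hNI.2.2 x hx, (h1 a).2.2.2.2 x hx]
  refine ⟨Fin.cons ⟨ι, c, g, γ⟩ A, ?_, ?_, ?_⟩
  · intro a
    refine Fin.cases ?_ ?_ a
    · exact ⟨rfl, rfl, hNI⟩
    · intro b
      rw [Fin.cons_succ]
      exact h1 b
  · intro a b
    refine Fin.cases ?_ ?_ a
    · refine Fin.cases ?_ ?_ b
      · intro h
        exact absurd rfl h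
      · intro b' _
        rw [Fin.cons_zero, Fin.cons_succ]
        exact hdisj b'
    · intro a'
      refine Fin.cases ?_ ?_ b
      · intro _
        rw [Fin.cons_zero, Fin.cons_succ]
        exact (hdisj a').symm
      · intro b' hab
        rw [Fin.cons_succ, Fin.cons_succ]
        exact h2 a' b' (fun h => hab (by rw [h]))
  · intro a
    refine Fin.cases ?_ ?_ a
    · rw [Fin.cons_zero]
      exact hξ
    · intro b
      rw [Fin.cons_succ]
      exact h3 b

end Pool.Agent.P2
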